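import Mathlib

/-!
# Nondegenerate alternating forms over the rational numbers are equivalent

The first two lemmas are taken from `Pool.Agent.Y519.AS.Darb`, with the real numbers replaced by the rational numbers.
-/

set_option autoImplicit false

open Finset Module Matrix

namespace Pool.Agent.Y118.HV

/-- the standard symplectic matrix -/
def Jst {k : ℕ} (x y : Fin k × Fin 2) : ℚ :=
  if x.1 = y.1 then (if x.2 = 0 ∧ y.2 = 1 then 1 else if x.2 = 1 ∧ y.2 = 0 then -1 else 0) else 0

theorem anti {V : Type*} [AddCommGroup V] [Module ℚ V]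
    {ω : V →ₗ[ℚ] V →ₗ[ℚ] ℚ} (halt : ∀ v, ω v v = 0) (u v : V) : ω u v = -ω v u := by
  have h1 := halt (u + v)
  simp only [map_add, LinearMap.add_apply, halt, zero_add, add_zero] at h1
  linarith

theorem exists_sympl (k : ℕ) : ∀ (V : Type) [AddCommGroup V] [Module ℚ V]
    [FiniteDimensional ℚ V] (ω : V →ₗ[ℚ] V →ₗ[ℚ] ℚ) (_ : ∀ v, ω v v = 0)
    (_ : ∀ u, (∀ v, ω u v = 0) → u = 0) (_ : finrank ℚ V = 2 * k),
    ∃ c : Fin k × Fin 2 → V, ∀ x y, ω (c x) (c y) = Jst x y := by
  induction k with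
  | zero =>
    intro V _ _ _ ω _ _ _
    exact ⟨fun x => x.1.elim0, fun x => x.1.elim0⟩
  | succ k ih =>
    intro V _ _ _ ω halt hnd hdim
    have hanti := anti halt
    have hpos : 0 < finrank ℚ V := by omega
    obtain ⟨a, ha⟩ : ∃ a : V, a ≠ 0 := by
      have : Nontrivial V := Module.finrank_pos_iff.1 hpos
      exact exists_ne 0
    obtain ⟨b', hb'⟩ : ∃ v, ω a v ≠ 0 := by
      by_contra hcon
      push Not at hcon
      exact ha (hnd a hcon)
    obtain ⟨b, hab⟩ : ∃ b, ω a b = 1 := by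
      refine ⟨(ω a b')⁻¹ • b', ?_⟩
      rw [map_smul, smul_eq_mul]
      exact inv_mul_cancel₀ hb'
    have hba : ω b a = -1 := by rw [hanti, hab]
    let F : V →ₗ[ℚ] ℚ × ℚ := (ω a).prod (ω b)
    have hF : ∀ v, F v = (ω a v, ω b v) := fun v => rfl
    have hsurj : Function.Surjective F := by
      rintro ⟨s, t⟩
      refine ⟨s • b - t • a, ?_⟩
      rw [hF]
      simp [hab, hba, halt]
    let W : Submodule ℚ V := LinearMap.ker F
    have hW : ∀ v : V, v ∈ W ↔ ω a v = 0 ∧ ω b v = 0 := by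
      intro v
      rw [LinearMap.mem_ker, hF]
      exact Prod.mk_eq_zero
    have hdimW : finrank ℚ W = 2 * k := by
      have h1 := LinearMap.finrank_range_add_finrank_ker F
      rw [LinearMap.range_eq_top.2 hsurj, finrank_top, Module.finrank_prod, finrank_self] at h1
      change 1 + 1 + finrank ℚ W = _ at h1
      omega
    let ω' : W →ₗ[ℚ] W →ₗ[ℚ] ℚ := ω.domRestrict₁₂ W W
    have hω' : ∀ u v : W, ω' u v = ω u v := fun u v => rfl
    obtain ⟨c, hc⟩ := ih W ω' (fun w => halt w) (by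
      intro u hu
      apply Subtype.ext
      apply hnd
      intro v
      obtain ⟨hu1, hu2⟩ := (hW u).1 u.2
      have hv : v - (ω a v) • b + (ω b v) • a ∈ W := by
        rw [hW]
        constructor
        · simp [hab, halt]
        · simp [hba, halt]
      have h2 := hu ⟨_, hv⟩
      rw [hω'] at h2
      simp only [map_sub, map_add, map_smul, smul_eq_mul] at h2
      rw [hanti u b, hanti u a, hu1, hu2] at h2
      linarith) hdimW
    refine ⟨fun x => Fin.cases (motive := fun _ => V) (if x.2 = 0 then a else b)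
      (fun m => (c (m, x.2) : V)) x.1, ?_⟩
    have hca : ∀ z, ω a (c z : V) = 0 := fun z => ((hW _).1 (c z).2).1
    have hcb : ∀ z, ω b (c z : V) = 0 := fun z => ((hW _).1 (c z).2).2
    have hca' : ∀ z, ω (c z : V) a = 0 := fun z => by rw [hanti, hca, neg_zero]
    have hcb' : ∀ z, ω (c z : V) b = 0 := fun z => by rw [hanti, hcb, neg_zero]
    rintro ⟨x, i⟩ ⟨y, j⟩
    refine Fin.cases ?_ (fun x => ?_) x
    · refine Fin.cases ?_ (fun y => ?_) y
      · fin_cases i <;> fin_cases j <;> simp [Jst, halt, hab, hba]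
      · fin_cases i <;> simp [Jst, hca, hcb, (Fin.succ_ne_zero y).symm]
    · refine Fin.cases ?_ (fun y => ?_) y
      · fin_cases j <;> simp [Jst, hca', hcb', Fin.succ_ne_zero x]
      · have h3 := hc (x, i) (y, j)
        rw [hω'] at h3
        simp only [Fin.cases_succ]
        rw [h3]
        simp [Jst]

variable {m : ℕ}

/-- the standard matrix on `Fin (2 * m)` -/
def Js (m : ℕ) : Matrix (Fin (2 * m)) (Fin (2 * m)) ℚ :=
  Matrix.of fun i j => Jst ((finProdFinEquiv (m := m) (n := 2)).symm (Fin.cast (by ring) i))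
    ((finProdFinEquiv (m := m) (n := 2)).symm (Fin.cast (by ring) j))

lemma nf {G : Matrix (Fin (2 * m)) (Fin (2 * m)) ℚ} (hs : G.transpose = -G) (hd : G.det ≠ 0) :
    ∃ P : Matrix (Fin (2 * m)) (Fin (2 * m)) ℚ, P * G * P.transpose = Js m := by
  let ω : (Fin (2 * m) → ℚ) →ₗ[ℚ] (Fin (2 * m) → ℚ) →ₗ[ℚ] ℚ := Matrix.toLinearMap₂' ℚ G
  have hω : ∀ u v, ω u v = u ⬝ᵥ (G *ᵥ v) := fun u v => Matrix.toLinearMap₂'_apply' G u v
  have hsk : ∀ u v, ω u v = -ω v u := by
    intro u v
    rw [hω, hω, dotProduct_mulVec, ← mulVec_transpose, hs, neg_mulVec, neg_dotProduct, dotProduct_comm]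
  obtain ⟨c, hc⟩ := exists_sympl m (Fin (2 * m) → ℚ) ω (fun v => by
    have := hsk v v
    linarith) (fun u hu => by
    have h1 : u ᵥ* G = 0 := by
      funext j
      have h2 := hu (Pi.single j 1)
      rw [hω, dotProduct_mulVec, dotProduct_single_one] at h2
      exact h2
    exact Matrix.eq_zero_of_vecMul_eq_zero hd h1) (by rw [Module.finrank_fin_fun])
  refine ⟨Matrix.of fun i => c ((finProdFinEquiv (m := m) (n := 2)).symm (Fin.cast (by ring) i)), ?_⟩
  ext i j
  have h1 := hc ((finProdFinEquiv (m := m) (n := 2)).symm (Fin.cast (by ring) i))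
    ((finProdFinEquiv (m := m) (n := 2)).symm (Fin.cast (by ring) j))
  rw [hω] at h1
  unfold Js
  rw [Matrix.of_apply, ← h1, Matrix.mul_assoc, Matrix.mul_apply]
  rfl

lemma Jst_sq {k : ℕ} (x y : Fin k × Fin 2) : ∑ z, Jst x z * Jst z y = if x = y then -1 else 0 := by
  obtain ⟨a, i⟩ := x
  obtain ⟨b, j⟩ := y
  rw [Fintype.sum_prod_type, Finset.sum_eq_single a]
  · rw [Fin.sum_univ_two]
    by_cases h : a = b
    · subst h
      fin_cases i <;> fin_cases j <;> simp [Jst]
    · have h' : (a, i) ≠ (b, j) := fun h2 => h (congrArg Prod.fst h2)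
      rw [if_neg h']
      simp [Jst, h]
  · intro c _ hc
    refine Finset.sum_eq_zero fun l _ => ?_
    simp [Jst, Ne.symm hc]
  · intro h
    exact absurd (Finset.mem_univ _) h

lemma Js_sq : Js m * Js m = -1 := by
  ext i j
  rw [Matrix.mul_apply]
  unfold Js
  simp only [Matrix.of_apply]
  have h1 := Fintype.sum_equiv ((finCongr (show 2 * m = m * 2 by ring)).trans (finProdFinEquiv (m := m) (n := 2)).symm)
    (fun l : Fin (2 * m) => Jst ((finProdFinEquiv (m := m) (n := 2)).symm (Fin.cast (by ring) i))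
      ((finProdFinEquiv (m := m) (n := 2)).symm (Fin.cast (by ring) l)) *
      Jst ((finProdFinEquiv (m := m) (n := 2)).symm (Fin.cast (by ring) l))
      ((finProdFinEquiv (m := m) (n := 2)).symm (Fin.cast (by ring) j)))
    (fun z => Jst ((finProdFinEquiv (m := m) (n := 2)).symm (Fin.cast (by ring) i)) z *
      Jst z ((finProdFinEquiv (m := m) (n := 2)).symm (Fin.cast (by ring) j))) (fun l => rfl)
  rw [h1, Jst_sq, Matrix.neg_apply, Matrix.one_apply]
  by_cases h : i = j
  · subst h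
    rw [if_pos rfl, if_pos rfl]
  · rw [if_neg h, if_neg, neg_zero]
    intro h2
    apply h
    have h3 := (finProdFinEquiv (m := m) (n := 2)).symm.injective h2
    exact Fin.ext (congrArg (fun z : Fin (m * 2) => (z : ℕ)) h3)

/-- **equivalence of forms** -/
theorem exists_iso {S G : Matrix (Fin (2 * m)) (Fin (2 * m)) ℚ} (hS : S.transpose = -S) (hSd : S.det ≠ 0)
    (hG : G.transpose = -G) (hGd : G.det ≠ 0) :
    ∃ g : Matrix (Fin (2 * m)) (Fin (2 * m)) ℚ, g.det ≠ 0 ∧ g * S * g.transpose = G := by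
  obtain ⟨P, hP⟩ := nf hS hSd
  obtain ⟨R, hR⟩ := nf hG hGd
  have hJ : (Js m).det ≠ 0 := by
    intro h0
    have h1 := congrArg Matrix.det (Js_sq (m := m))
    rw [Matrix.det_mul, h0, zero_mul, Matrix.det_neg, Matrix.det_one, mul_one] at h1
    exact pow_ne_zero _ (by norm_num) h1.symm
  have hPd : P.det ≠ 0 := by
    intro h0
    rw [← hP, Matrix.det_mul, Matrix.det_mul, h0, zero_mul, zero_mul] at hJ
    exact hJ rfl
  have hRd : R.det ≠ 0 := by
    intro h0
    rw [← hR, Matrix.det_mul, Matrix.det_mul, h0, zero_mul, zero_mul] at hJ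
    exact hJ rfl
  have hu : IsUnit R.det := isUnit_iff_ne_zero.2 hRd
  have hut : IsUnit R.transpose.det := by rw [Matrix.det_transpose]; exact hu
  refine ⟨R⁻¹ * P, ?_, ?_⟩
  · rw [Matrix.det_mul]
    refine mul_ne_zero ?_ hPd
    intro h0
    have h1 := congrArg Matrix.det (Matrix.nonsing_inv_mul R hu)
    rw [Matrix.det_mul, h0, zero_mul, Matrix.det_one] at h1
    exact zero_ne_one h1
  · have h1 : R⁻¹.transpose = (R.transpose)⁻¹ := Matrix.transpose_nonsing_inv R
    calc R⁻¹ * P * S * (R⁻¹ * P).transpose = R⁻¹ * (P * S * P.transpose) * (R.transpose)⁻¹ := by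
          rw [Matrix.transpose_mul, h1]
          simp only [Matrix.mul_assoc]
      _ = R⁻¹ * (R * G * R.transpose) * (R.transpose)⁻¹ := by rw [hP, hR]
      _ = (R⁻¹ * R) * G * (R.transpose * (R.transpose)⁻¹) := by simp only [Matrix.mul_assoc]
      _ = G := by rw [Matrix.nonsing_inv_mul _ hu, Matrix.mul_nonsing_inv _ hut, Matrix.one_mul, Matrix.mul_one]

end Pool.Agent.Y118.HV
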